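import Mathlib

set_option autoImplicit false

namespace Pool.Agent.Results.MP_be80fa_co.RationalDensities

open Finset

/-- The colouring rule: whenever all vertices of `T` except `w` have colour `x`,
the colour of `w` is one of the `m` colours following `x` cyclically modulo `N`. -/
def Ok (N m : ℕ) {V : Type} (c : V → ℕ) (T : Finset V) : Prop :=
  ∀ w ∈ T, ∀ x : ℕ, (∀ v ∈ T, v ≠ w → c v = x) → ∃ j : ℕ, j < m ∧ c w = (x + j + 1) % N

/-- `G` has a colouring with colours `< N` obeying the rule. -/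
def Col (N m : ℕ) {V : Type} (G : Finset (Finset V)) : Prop :=
  ∃ c : V → ℕ, (∀ v, c v < N) ∧ ∀ T ∈ G, Ok N m c T

/-- The forbidden family: all `r`-graphs on at most `L` vertices without such a colouring. -/
def Fam (r N m L : ℕ) (k : ℕ) : Set (Finset (Finset (Fin k))) :=
  {H | k ≤ L ∧ (∀ e ∈ H, e.card = r) ∧ ¬ Col N m H}

lemma free_of_col {r N m n L : ℕ} {G : Finset (Finset (Fin n))} (hG : Col N m G) :
    ∀ k : ℕ, ∀ H ∈ Fam r N m L k, ∀ f : Fin k ↪ Fin n, ∃ e ∈ H, e.map f ∉ G := by
  intro k H hH f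
  by_contra hcon
  push Not at hcon
  apply hH.2.2
  obtain ⟨c, hc, hok⟩ := hG
  refine ⟨fun v => c (f v), fun v => hc _, fun T hT => ?_⟩
  intro w hw x hx
  refine hok (T.map f) (hcon T hT) (f w) (mem_map_of_mem f hw) x ?_
  intro v' hv' hne
  obtain ⟨v, hv, rfl⟩ := mem_map.1 hv'
  exact hx v hv (fun h => hne (by rw [h]))


lemma colOn_of_free {r N m n L : ℕ} (hN : 0 < N) {G : Finset (Finset (Fin n))}
    (hr : ∀ e ∈ G, e.card = r)
    (h : ∀ k : ℕ, ∀ H ∈ Fam r N m L k, ∀ f : Fin k ↪ Fin n, ∃ e ∈ H, e.map f ∉ G)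
    (B : Finset (Fin n)) (hB : B.card ≤ L) :
    ∃ c : Fin n → ℕ, (∀ v, c v < N) ∧ ∀ T ∈ G, T ⊆ B → Ok N m c T := by
  classical
  set f : Fin B.card ↪ Fin n := (B.orderEmbOfFin rfl).toEmbedding with hf
  have hfB : ∀ v, v ∈ B → ∃ i, f i = v := by
    intro v hv
    have : v ∈ Set.range (B.orderEmbOfFin rfl) := by
      rw [range_orderEmbOfFin]; exact hv
    obtain ⟨i, hi⟩ := this
    exact ⟨i, hi⟩
  set H : Finset (Finset (Fin B.card)) := univ.filter (fun e => e.map f ∈ G) with hH
  by_cases hcol : Col N m H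
  · obtain ⟨c', hc', hok⟩ := hcol
    have hext : ∀ i, Function.extend f c' (fun _ => 0) (f i) = c' i :=
      fun i => f.injective.extend_apply c' _ i
    refine ⟨Function.extend f c' (fun _ => 0), ?_, ?_⟩
    · intro v
      by_cases hv : ∃ i, f i = v
      · obtain ⟨i, rfl⟩ := hv
        rw [hext]
        exact hc' i
      · rw [Function.extend_apply' _ _ _ hv]
        exact hN
    · intro T hT hTB
      set e : Finset (Fin B.card) := univ.filter (fun i => f i ∈ T) with he
      have heT : e.map f = T := by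
        ext v
        rw [mem_map]
        constructor
        · rintro ⟨i, hi, rfl⟩
          exact (mem_filter.1 hi).2
        · intro hv
          obtain ⟨i, rfl⟩ := hfB v (hTB hv)
          exact ⟨i, mem_filter.2 ⟨mem_univ _, hv⟩, rfl⟩
      have heH : e ∈ H := by
        rw [hH, mem_filter, heT]
        exact ⟨mem_univ _, hT⟩
      intro w hw x hx
      obtain ⟨i, rfl⟩ := hfB w (hTB hw)
      obtain ⟨j, hj, hcj⟩ := hok e heH i (mem_filter.2 ⟨mem_univ _, hw⟩) x (by
        intro v hv hne
        have := hx (f v) (mem_filter.1 hv).2 (fun h => hne (f.injective h))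
        rw [hext] at this
        exact this)
      exact ⟨j, hj, by rw [hext]; exact hcj⟩
  · exfalso
    have hmem : H ∈ Fam r N m L B.card := by
      refine ⟨hB, ?_, hcol⟩
      intro e he
      rw [← hr _ (mem_filter.1 he).2, card_map]
    obtain ⟨e, he, hne⟩ := h _ H hmem f
    exact hne (mem_filter.1 he).2

/-- Neighbourhoods control codegrees. -/
lemma codeg_le_nbr {n r : ℕ} (hr : 3 ≤ r) (G : Finset (Finset (Fin n)))
    (hG : ∀ e ∈ G, e.card = r) (S : Finset (Fin n)) (hS : S.card = r - 1) :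
    (G.filter (fun e => S ⊆ e)).card ≤
      (univ.filter (fun w => w ∉ S ∧ insert w S ∈ G)).card := by
  classical
  have hsub : G.filter (fun e => S ⊆ e) ⊆
      (univ.filter (fun w => w ∉ S ∧ insert w S ∈ G)).image (fun w => insert w S) := by
    intro e he
    rw [mem_filter] at he
    obtain ⟨heG, hSe⟩ := he
    have h1 : (e \ S).card = 1 := by
      rw [card_sdiff_of_subset hSe, hG e heG, hS]; omega
    obtain ⟨w, hw⟩ := card_eq_one.1 h1
    have hwe : w ∈ e \ S := by rw [hw]; exact mem_singleton_self w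
    rw [mem_sdiff] at hwe
    have heq : e = insert w S := by
      ext v
      rw [mem_insert]
      constructor
      · intro hv
        by_cases hvS : v ∈ S
        · exact Or.inr hvS
        · left
          have : v ∈ e \ S := mem_sdiff.2 ⟨hv, hvS⟩
          rw [hw] at this
          exact mem_singleton.1 this
      · rintro (rfl | hv)
        · exact hwe.1
        · exact hSe hv
    rw [mem_image]
    refine ⟨w, mem_filter.2 ⟨mem_univ _, hwe.2, ?_⟩, heq.symm⟩
    rw [← heq]
    exact heG
  exact (card_le_card hsub).trans card_image_le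

/-- Many vertices lie in at least `m + 1` of `N` neighbourhoods. -/
lemma many_heavy {n r N m D K : ℕ} (hr : 3 ≤ r) (hN : 0 < N) (G : Finset (Finset (Fin n)))
    (hG : ∀ e ∈ G, e.card = r)
    (hD : ∀ S : Finset (Fin n), S.card = r - 1 → D ≤ (G.filter (fun e => S ⊆ e)).card)
    (hDK : m * n + N * K ≤ N * D) (S : Fin N → Finset (Fin n)) (hS : ∀ i, (S i).card = r - 1) :
    K ≤ (univ.filter (fun w => m + 1 ≤
      (univ.filter (fun i => w ∉ S i ∧ insert w (S i) ∈ G)).card)).card := by
  classical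
  set cnt : Fin n → ℕ := fun w => (univ.filter (fun i => w ∉ S i ∧ insert w (S i) ∈ G)).card
    with hcnt
  set A := univ.filter (fun w => m + 1 ≤ cnt w) with hA
  have h1 : N * D ≤ ∑ i : Fin N, (univ.filter (fun w => w ∉ S i ∧ insert w (S i) ∈ G)).card := by
    calc N * D = ∑ _i : Fin N, D := by simp
      _ ≤ _ := sum_le_sum (fun i _ => (hD _ (hS i)).trans (codeg_le_nbr hr G hG _ (hS i)))
  have h2 : ∑ i : Fin N, (univ.filter (fun w => w ∉ S i ∧ insert w (S i) ∈ G)).card =
      ∑ w : Fin n, cnt w := by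
    simp only [hcnt, card_filter]
    exact sum_comm
  have h3 : ∑ w : Fin n, cnt w ≤ ∑ w : Fin n, (m + if m + 1 ≤ cnt w then N else 0) := by
    apply sum_le_sum
    intro w _
    split_ifs with h
    · have : cnt w ≤ N := by
        calc cnt w ≤ (univ : Finset (Fin N)).card := card_le_card (subset_univ _)
          _ = N := by simp
      omega
    · omega
  have h4 : ∑ w : Fin n, (m + if m + 1 ≤ cnt w then N else 0) = m * n + N * A.card := by
    rw [sum_add_distrib, ← sum_filter]
    simp only [sum_const, card_univ, Fintype.card_fin, smul_eq_mul]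
    rw [← hA]
    ring
  have h5 : N * K ≤ N * A.card := by omega
  exact Nat.le_of_mul_le_mul_left h5 hN

/-- Enlarging a vertex set so that it meets all heavy sets. -/
lemma grow {n r N m D K : ℕ} (hr : 3 ≤ r) (hN : 0 < N) (G : Finset (Finset (Fin n)))
    (hG : ∀ e ∈ G, e.card = r)
    (hD : ∀ S : Finset (Fin n), S.card = r - 1 → D ≤ (G.filter (fun e => S ⊆ e)).card)
    (hDK : m * n + N * K ≤ N * D) (b : ℕ) (B : Finset (Fin n)) (hB : B.card ≤ b) :
    ∃ B' : Finset (Fin n), B ⊆ B' ∧ B'.card ≤ b + (2 ^ b) ^ N * K ∧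
      ∀ S : Fin N → Finset (Fin n), (∀ i, S i ⊆ B) → (∀ i, (S i).card = r - 1) →
        ∃ W : Finset (Fin n), W ⊆ B' ∧ W.card = K ∧ ∀ w ∈ W, m + 1 ≤
          (univ.filter (fun i => w ∉ S i ∧ insert w (S i) ∈ G)).card := by
  classical
  have hex : ∀ S : Fin N → Finset (Fin n), ∃ W : Finset (Fin n), W.card ≤ K ∧
      ((∀ i, (S i).card = r - 1) → W.card = K ∧ ∀ w ∈ W, m + 1 ≤
        (univ.filter (fun i => w ∉ S i ∧ insert w (S i) ∈ G)).card) := by
    intro S
    by_cases hS : ∀ i, (S i).card = r - 1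
    · obtain ⟨W, hW, hWc⟩ := exists_subset_card_eq (many_heavy hr hN G hG hD hDK S hS)
      exact ⟨W, hWc.le, fun _ => ⟨hWc, fun w hw => (mem_filter.1 (hW hw)).2⟩⟩
    · exact ⟨∅, by simp, fun h => absurd h hS⟩
  choose Wf hW1 hW2 using hex
  refine ⟨B ∪ (Fintype.piFinset (fun _ : Fin N => B.powerset)).biUnion Wf,
    subset_union_left, ?_, ?_⟩
  · refine (card_union_le _ _).trans ?_
    have h1 : ((Fintype.piFinset (fun _ : Fin N => B.powerset)).biUnion Wf).card ≤
        (Fintype.piFinset (fun _ : Fin N => B.powerset)).card * K :=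
      card_biUnion_le_card_mul _ _ _ (fun S _ => hW1 S)
    have h2 : (Fintype.piFinset (fun _ : Fin N => B.powerset)).card = (2 ^ B.card) ^ N := by
      rw [Fintype.card_piFinset]
      simp
    rw [h2] at h1
    have h3 : (2 ^ B.card) ^ N ≤ (2 ^ b) ^ N :=
      Nat.pow_le_pow_left (Nat.pow_le_pow_right (by norm_num) hB) N
    have h4 := Nat.mul_le_mul_right K h3
    omega
  · intro S hSB hSc
    obtain ⟨h1, h2⟩ := hW2 S hSc
    refine ⟨Wf S, ?_, h1, h2⟩
    refine subset_union_right.trans' ?_
    apply subset_biUnion_of_mem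
    rw [Fintype.mem_piFinset]
    exact fun i => mem_powerset.2 (hSB i)

/-- The travelling sequence. -/
lemma travel {N m : ℕ} (I : Finset ℕ) (x0 : ℕ) (hx0 : x0 % N ∈ I) :
    ∃ X : ℕ → ℕ, X 0 = x0 ∧ (∀ i, X i % N ∈ I) ∧ (∀ i, X i ≤ X (i + 1)) ∧
      (∀ i, X (i + 1) ≤ X i + m) ∧
      (∀ i j, j ≤ m → (X i + j) % N ∈ I → X i + j ≤ X (i + 1)) := by
  classical
  set step : ℕ → ℕ := fun x => x + Nat.findGreatest (fun s => (x + s) % N ∈ I) m with hstep
  refine ⟨fun i => Nat.rec x0 (fun _ x => step x) i, rfl, ?_, ?_, ?_, ?_⟩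
  · intro i
    induction i with
    | zero => exact hx0
    | succ i ih =>
      have := Nat.findGreatest_spec (P := fun s => ((Nat.rec x0 (fun _ x => step x) i : ℕ) + s) % N ∈ I)
        (m := 0) (n := m) (Nat.zero_le _) ih
      exact this
  · intro i
    exact Nat.le_add_right _ _
  · intro i
    exact Nat.add_le_add_left (Nat.findGreatest_le _) _
  · intro i j hj hI
    exact Nat.add_le_add_left (Nat.le_findGreatest hj hI) _

/-- Each popular colour is met at most `m` times. -/
lemma travel_count {N m : ℕ} (hN : 0 < N) (I : Finset ℕ) (X : ℕ → ℕ)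
    (h1 : ∀ i, X i ≤ X (i + 1)) (h2 : ∀ i, X (i + 1) ≤ X i + m)
    (h3 : ∀ i j, j ≤ m → (X i + j) % N ∈ I → X i + j ≤ X (i + 1)) (y : ℕ) (hy : y ∈ I) :
    (univ.filter (fun i : Fin N => ∃ j, j < m ∧ y = (X i + j + 1) % N)).card ≤ m := by
  classical
  have hmono : Monotone X := monotone_nat_of_le_succ h1
  have hup : ∀ i, X i ≤ X 0 + i * m := by
    intro i
    induction i with
    | zero => simp
    | succ i ih =>
      have := h2 i
      have e : (i + 1) * m = i * m + m := by ring
      omega
  set J := univ.filter (fun i : Fin N => ∃ j, j < m ∧ y = (X i + j + 1) % N) with hJ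
  have hex : ∀ i : Fin N, ∃ p : ℕ, i ∈ J → (X i < p ∧ p ≤ X (i + 1) ∧ p % N = y) := by
    intro i
    by_cases hi : i ∈ J
    · obtain ⟨j, hj, hyj⟩ := (mem_filter.1 hi).2
      refine ⟨X i + (j + 1), fun _ => ⟨by omega, ?_, hyj.symm⟩⟩
      apply h3 i (j + 1) (by omega)
      have : X i + (j + 1) = X i + j + 1 := by ring
      rw [this, ← hyj]
      exact hy
    · exact ⟨0, fun h => absurd h hi⟩
  choose p hp using hex
  have hcard : J.card = (J.image (fun i => p i / N)).card := by
    rw [card_image_of_injOn]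
    intro i hi i' hi' hq
    simp only at hq
    have a1 := hp i hi
    have a2 := hp i' hi'
    have e1 := Nat.div_add_mod (p i) N
    have e2 := Nat.div_add_mod (p i') N
    rw [a1.2.2, hq] at e1
    rw [a2.2.2] at e2
    have hpp : p i = p i' := e1.symm.trans e2
    rcases lt_trichotomy i i' with h | h | h
    · exfalso
      have : X (i + 1) ≤ X i' := hmono (by have := Fin.lt_def.1 h; omega)
      omega
    · exact h
    · exfalso
      have : X (i' + 1) ≤ X i := hmono (by have := Fin.lt_def.1 h; omega)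
      omega
  rw [hcard]
  by_cases hne : J.Nonempty
  · obtain ⟨i0, hi0⟩ := hne
    have hyN : y < N := by rw [← (hp i0 hi0).2.2]; exact Nat.mod_lt _ hN
    calc _ ≤ (Ico ((X 0 + N - y) / N) ((X 0 + N - y) / N + m)).card := by
          apply card_le_card
          intro q hq
          obtain ⟨i, hi, rfl⟩ := mem_image.1 hq
          have a1 := hp i hi
          have e1 := Nat.div_add_mod (p i) N
          rw [a1.2.2] at e1
          have hlo : X 0 ≤ X i := hmono (Nat.zero_le _)
          have hhi : X (i + 1) ≤ X 0 + N * m := by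
            have b1 := hup (i + 1)
            have b2 : ((i : ℕ) + 1) * m ≤ N * m := Nat.mul_le_mul_right _ (by have := i.2; omega)
            omega
          rw [mem_Ico]
          set q := p i / N
          constructor
          · apply Nat.le_of_lt_succ
            apply Nat.div_lt_of_lt_mul
            have : N * (q + 1) = N * q + N := by ring
            show X 0 + N - y < N * (q + 1)
            omega
          · have hle : q + 1 ≤ (X 0 + N - y + N * m) / N := by
              rw [Nat.le_div_iff_mul_le hN]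
              have : (q + 1) * N = N * q + N := by ring
              omega
            rw [Nat.add_mul_div_left _ _ hN] at hle
            omega
      _ = m := by rw [Nat.card_Ico]; omega
  · rw [not_nonempty_iff_eq_empty.1 hne]
    simp

/-- Popular colours in `B`. -/
noncomputable def Pop (r N : ℕ) {n : ℕ} (c : Fin n → ℕ) (B : Finset (Fin n)) : Finset ℕ := by
  classical exact (range N).filter (fun x => r - 1 ≤ (B.filter (fun v => c v = x)).card)

lemma mem_Pop {r N n : ℕ} {c : Fin n → ℕ} {B : Finset (Fin n)} {x : ℕ} :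
    x ∈ Pop r N c B ↔ x < N ∧ r - 1 ≤ (B.filter (fun v => c v = x)).card := by
  unfold Pop
  rw [mem_filter, mem_range]

lemma exists_pop {r N n : ℕ} (hr : 3 ≤ r) (hN : 0 < N) (c : Fin n → ℕ) (hc : ∀ v, c v < N)
    (W : Finset (Fin n)) (hW : W.card = N * r) : ∃ x, x ∈ Pop r N c W := by
  classical
  by_contra hcon
  push Not at hcon
  have h1 : W.card = ∑ x ∈ range N, (W.filter (fun v => c v = x)).card :=
    card_eq_sum_card_fiberwise (fun v _ => mem_coe.2 (mem_range.2 (hc v)))
  have h2 : ∑ x ∈ range N, (W.filter (fun v => c v = x)).card ≤ ∑ _x ∈ range N, (r - 1) := by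
    apply sum_le_sum
    intro x hx
    have h3 := hcon x
    rw [mem_Pop] at h3
    push Not at h3
    exact (h3 (mem_range.1 hx)).le
  rw [sum_const, card_range, smul_eq_mul] at h2
  have h4 : N * (r - 1) < N * r := Nat.mul_lt_mul_of_pos_left (by omega) hN
  omega

lemma Pop_mono {r N n : ℕ} {c : Fin n → ℕ} {B B' : Finset (Fin n)} (h : B ⊆ B') :
    Pop r N c B ⊆ Pop r N c B' := by
  intro x hx
  rw [mem_Pop] at hx ⊢
  exact ⟨hx.1, hx.2.trans (card_le_card (filter_subset_filter _ h))⟩

/-- The recursively defined bound. -/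
def LL (N r : ℕ) : ℕ → ℕ
  | 0 => N * r
  | t + 1 => LL N r t + (2 ^ (LL N r t)) ^ N * (N * r)

/-- The iteration. -/
lemma iterate {n r N m D : ℕ} (hr : 3 ≤ r) (hN : 0 < N) (hn : N * r ≤ n)
    (G : Finset (Finset (Fin n))) (hG : ∀ e ∈ G, e.card = r)
    (hD : ∀ S : Finset (Fin n), S.card = r - 1 → D ≤ (G.filter (fun e => S ⊆ e)).card)
    (hDK : m * n + N * (N * r) ≤ N * D) (t : ℕ) :
    ∃ B : Finset (Fin n), B.card ≤ LL N r t ∧ ∀ c : Fin n → ℕ, (∀ v, c v < N) →
      (∀ T ∈ G, T ⊆ B → Ok N m c T) → t + 1 ≤ (Pop r N c B).card := by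
  classical
  induction t with
  | zero =>
    have hn' : N * r ≤ (univ : Finset (Fin n)).card := by simpa using hn
    obtain ⟨B, _, hBc⟩ := exists_subset_card_eq hn'
    refine ⟨B, hBc.le, fun c hc _ => ?_⟩
    obtain ⟨x, hx⟩ := exists_pop hr hN c hc B hBc
    exact card_pos.2 ⟨x, hx⟩
  | succ t ih =>
    obtain ⟨B, hBc, hB⟩ := ih
    obtain ⟨B', hBB', hB'c, hB'⟩ := grow hr hN G hG hD hDK (LL N r t) B hBc
    refine ⟨B', hB'c, fun c hc hok => ?_⟩
    have h1 := hB c hc (fun T hT hTB => hok T hT (hTB.trans hBB'))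
    obtain ⟨x0, hx0⟩ := card_pos.1 (by omega : 0 < (Pop r N c B).card)
    have hx0N : x0 % N = x0 := Nat.mod_eq_of_lt (mem_Pop.1 hx0).1
    obtain ⟨X, _, hXI, hX1, hX2, hX3⟩ := travel (N := N) (m := m) (Pop r N c B) x0
      (by rw [hx0N]; exact hx0)
    have hSex : ∀ i : Fin N, ∃ S : Finset (Fin n), S ⊆ B.filter (fun v => c v = X i % N) ∧
        S.card = r - 1 := fun i => exists_subset_card_eq (mem_Pop.1 (hXI i)).2
    choose S hS1 hS2 using hSex
    obtain ⟨W, hWB, hWc, hW⟩ := hB' S (fun i => (hS1 i).trans (filter_subset _ _)) hS2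
    have hnot : ∀ w ∈ W, c w ∉ Pop r N c B := by
      intro w hw hpop
      have h2 := hW w hw
      have h3 := travel_count hN (Pop r N c B) X hX1 hX2 hX3 (c w) hpop
      have h4 : (univ.filter (fun i => w ∉ S i ∧ insert w (S i) ∈ G)).card ≤
          (univ.filter (fun i : Fin N => ∃ j, j < m ∧ c w = (X i + j + 1) % N)).card := by
        apply card_le_card
        intro i hi
        rw [mem_filter] at hi ⊢
        refine ⟨mem_univ _, ?_⟩
        have hTB : insert w (S i) ⊆ B' := by
          intro v hv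
          rcases mem_insert.1 hv with h | h
          · rw [h]; exact hWB hw
          · exact hBB' (mem_filter.1 (hS1 i h)).1
        obtain ⟨j, hj, hcj⟩ := hok _ hi.2.2 hTB w (mem_insert_self _ _) (X i % N) (by
          intro v hv hne
          rcases mem_insert.1 hv with h | h
          · exact absurd h hne
          · exact (mem_filter.1 (hS1 i h)).2)
        refine ⟨j, hj, ?_⟩
        rw [hcj]
        have e1 : X i % N + j + 1 = X i % N + (1 + j) := by ring
        have e2 : X i + j + 1 = X i + (1 + j) := by ring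
        rw [e1, e2]
        exact (Nat.mod_modEq (X i) N).add_right (1 + j)
      omega
    obtain ⟨y, hy⟩ := exists_pop hr hN c hc W hWc
    have hyB' : y ∈ Pop r N c B' := Pop_mono hWB hy
    have hynot : y ∉ Pop r N c B := by
      have h5 := (mem_Pop.1 hy).2
      obtain ⟨w, hw⟩ := card_pos.1 (by omega : 0 < (W.filter (fun v => c v = y)).card)
      rw [mem_filter] at hw
      have := hnot w hw.1
      rw [hw.2] at this
      exact this
    have hss : Pop r N c B ⊂ Pop r N c B' :=
      ⟨Pop_mono hBB', fun h => hynot (h hyB')⟩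
    have := card_lt_card hss
    omega

/-- For every `(r-1)`-set there are at least `m` good colours. -/
lemma exists_good {n r N m : ℕ} (hr : 3 ≤ r) (hm : m < N) (c : Fin n → ℕ)
    (hc : ∀ v, c v < N) (S : Finset (Fin n)) (hS : S.card = r - 1) :
    ∃ J : Finset ℕ, J ⊆ range N ∧ m ≤ J.card ∧
      ∀ w, w ∉ S → c w ∈ J → Ok N m c (insert w S) := by
  classical
  have hcard : 1 < S.card := by omega
  obtain ⟨a, ha, b, hb, hab⟩ := one_lt_card.1 hcard
  by_cases hmono : ∀ v ∈ S, c v = c a
  · -- monochromatic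
    refine ⟨(range m).image (fun j => (c a + j + 1) % N), ?_, ?_, ?_⟩
    · intro z hz
      obtain ⟨j, _, rfl⟩ := mem_image.1 hz
      exact mem_range.2 (Nat.mod_lt _ (by omega))
    · rw [card_image_of_injOn, card_range]
      intro j hj j' hj' h
      have hj1 : j < m := mem_range.1 (mem_coe.1 hj)
      have hj2 : j' < m := mem_range.1 (mem_coe.1 hj')
      have h1 : c a + j + 1 ≡ c a + j' + 1 [MOD N] := h
      have h2 : c a + j ≡ c a + j' [MOD N] := Nat.ModEq.add_right_cancel' 1 h1
      have h3 : j ≡ j' [MOD N] := Nat.ModEq.add_left_cancel' _ h2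
      exact Nat.ModEq.eq_of_lt_of_lt h3 (by omega) (by omega)
    · intro w hw hwJ
      obtain ⟨j, hj, hcw⟩ := mem_image.1 hwJ
      have hj1 : j < m := mem_range.1 hj
      intro w' hw' x hx
      by_cases hww : w' = w
      · have hxa : c a = x := hx a (mem_insert_of_mem ha) (by
          intro h; exact hw (by rw [← hww, ← h]; exact ha))
        refine ⟨j, hj1, ?_⟩
        rw [hww, ← hxa]
        exact hcw.symm
      · exfalso
        have hcwx : c w = x := hx w (mem_insert_self _ _) (fun h => hww h.symm)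
        have hxa : x = c a := by
          by_cases h : a = w'
          · have hbx : c b = x := hx b (mem_insert_of_mem hb) (by rw [← h]; exact hab.symm)
            rw [← hbx]
            exact hmono b hb
          · exact (hx a (mem_insert_of_mem ha) h).symm
        rw [hcwx, hxa] at hcw
        have h1 : c a + (j + 1) ≡ c a + 0 [MOD N] := by
          unfold Nat.ModEq
          rw [add_zero, Nat.mod_eq_of_lt (hc a)]
          have : c a + (j + 1) = c a + j + 1 := by ring
          rw [this]
          exact hcw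
        have h2 : j + 1 ≡ 0 [MOD N] := Nat.ModEq.add_left_cancel' _ h1
        have h3 := Nat.ModEq.eq_of_lt_of_lt h2 (by omega) (by omega)
        omega
  · -- not monochromatic
    push Not at hmono
    obtain ⟨u, hu, hua⟩ := hmono
    set bad : ℕ → Prop := fun z => ∃ w' ∈ S, (∀ v ∈ S, v ≠ w' → c v = z) ∧
      ¬ ∃ j : ℕ, j < m ∧ c w' = (z + j + 1) % N with hbad
    have hok : ∀ w, w ∉ S → c w ∈ (range N).filter (fun z => ¬ bad z) →
        Ok N m c (insert w S) := by
      intro w hw hwJ w' hw' x hx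
      rw [mem_filter] at hwJ
      by_cases hww : w' = w
      · exfalso
        have hne : ∀ v ∈ S, v ≠ w' := by
          intro v hv h
          exact hw (by rw [← hww, ← h]; exact hv)
        have h1 := hx u (mem_insert_of_mem hu) (hne u hu)
        have h2 := hx a (mem_insert_of_mem ha) (hne a ha)
        exact hua (h1.trans h2.symm)
      · have hwx : c w = x := hx w (mem_insert_self _ _) (fun h => hww h.symm)
        have hw'S : w' ∈ S := by
          rcases mem_insert.1 hw' with h | h
          · exact absurd h hww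
          · exact h
        by_contra hcon
        apply hwJ.2
        rw [hwx]
        exact ⟨w', hw'S, fun v hv hne => hx v (mem_insert_of_mem hv) hne, hcon⟩
    refine ⟨(range N).filter (fun z => ¬ bad z), filter_subset _ _, ?_, hok⟩
    by_cases hmN : m + 1 = N
    · -- no bad colours
      have hall : (range N).filter (fun z => ¬ bad z) = range N := by
        apply filter_true_of_mem
        intro z hz hb'
        obtain ⟨w', hw', hz1, hz2⟩ := hb'
        have hzN : z < N := mem_range.1 hz
        have hne : c w' ≠ z := by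
          intro h
          have hallz : ∀ v ∈ S, c v = z := by
            intro v hv
            by_cases hvw : v = w'
            · rw [hvw]; exact h
            · exact hz1 v hv hvw
          exact hua ((hallz u hu).trans (hallz a ha).symm)
        apply hz2
        have hcN := hc w'
        rcases lt_or_gt_of_ne hne with hlt | hgt
        · refine ⟨N + c w' - z - 1, by omega, ?_⟩
          have e1 : z + (N + c w' - z - 1) + 1 = N + c w' := by omega
          rw [e1, Nat.add_mod_left, Nat.mod_eq_of_lt hcN]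
        · refine ⟨c w' - z - 1, by omega, ?_⟩
          have e1 : z + (c w' - z - 1) + 1 = c w' := by omega
          rw [e1, Nat.mod_eq_of_lt hcN]
      rw [hall, card_range]
      omega
    · have hsub : range N \ {c a, c b} ⊆ (range N).filter (fun z => ¬ bad z) := by
        intro z hz
        rw [mem_sdiff, mem_insert, mem_singleton] at hz
        rw [mem_filter]
        refine ⟨hz.1, ?_⟩
        rintro ⟨w', hw', hz1, _⟩
        apply hz.2
        by_cases h : a = w'
        · right
          exact (hz1 b hb (by rw [← h]; exact hab.symm)).symm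
        · left
          exact (hz1 a ha h).symm
      have h1 := card_le_card hsub
      have h2 : (range N).card - ({c a, c b} : Finset ℕ).card ≤ (range N \ {c a, c b}).card :=
        le_card_sdiff _ _
      have h3 : ({c a, c b} : Finset ℕ).card ≤ 2 := card_le_two
      rw [card_range] at h2
      omega

/-- Counting vertices with colours in `J` under the residue colouring. -/
lemma count_residue {n N : ℕ} (hN : 0 < N) (J : Finset ℕ) (hJ : J ⊆ range N) :
    J.card * (n / N) ≤ (univ.filter (fun w : Fin n => (w : ℕ) % N ∈ J)).card := by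
  classical
  have h1 : J.card * (n / N) = ((J ×ˢ range (n / N)).image (fun p => p.1 + N * p.2)).card := by
    rw [card_image_of_injOn, card_product, card_range]
    rintro ⟨z, k⟩ hz ⟨z', k'⟩ hz' h
    rw [mem_coe, mem_product] at hz hz'
    have hzN : z < N := mem_range.1 (hJ hz.1)
    have hzN' : z' < N := mem_range.1 (hJ hz'.1)
    simp only at h
    have e1 : (z + N * k) % N = z := by rw [Nat.add_mul_mod_self_left, Nat.mod_eq_of_lt hzN]
    have e2 : (z' + N * k') % N = z' := by rw [Nat.add_mul_mod_self_left, Nat.mod_eq_of_lt hzN']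
    have hzz : z = z' := by rw [← e1, ← e2, h]
    subst hzz
    have hkk : N * k = N * k' := by omega
    have : k = k' := Nat.eq_of_mul_eq_mul_left hN hkk
    rw [this]
  rw [h1]
  calc _ ≤ ((univ.filter (fun w : Fin n => (w : ℕ) % N ∈ J)).image
          (fun w : Fin n => (w : ℕ))).card := by
        apply card_le_card
        intro t ht
        obtain ⟨⟨z, k⟩, hp, rfl⟩ := mem_image.1 ht
        rw [mem_product] at hp
        have hz : z < N := mem_range.1 (hJ hp.1)
        have hk : k < n / N := mem_range.1 hp.2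
        have hlt : z + N * k < n := by
          have h2 : N * (k + 1) ≤ N * (n / N) := Nat.mul_le_mul_left _ hk
          have h3 : N * (n / N) ≤ n := Nat.mul_div_le _ _
          have h4 : N * (k + 1) = N * k + N := by ring
          omega
        rw [mem_image]
        refine ⟨⟨z + N * k, hlt⟩, ?_, rfl⟩
        rw [mem_filter]
        refine ⟨mem_univ _, ?_⟩
        simp only
        rw [Nat.add_mul_mod_self_left, Nat.mod_eq_of_lt hz]
        exact hp.1
    _ ≤ _ := card_image_le

/-- Lower bound on codegrees in the extremal construction. -/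
lemma codeg_ge {n r N m : ℕ} (hr : 3 ≤ r) (hm : m < N) (G : Finset (Finset (Fin n)))
    (hG : ∀ T : Finset (Fin n), T.card = r → Ok N m (fun v : Fin n => (v : ℕ) % N) T → T ∈ G)
    (S : Finset (Fin n)) (hS : S.card = r - 1) :
    m * (n / N) ≤ (G.filter (fun e => S ⊆ e)).card + (r - 1) := by
  classical
  have hN : 0 < N := by omega
  obtain ⟨J, hJ, hJm, hok⟩ := exists_good hr hm (fun v : Fin n => (v : ℕ) % N)
    (fun v => Nat.mod_lt _ hN) S hS
  have h1 := count_residue (n := n) hN J hJ
  set A := univ.filter (fun w : Fin n => (w : ℕ) % N ∈ J) with hA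
  have h2 : ((A \ S).image (fun w => insert w S)).card = (A \ S).card := by
    rw [card_image_of_injOn]
    intro w hw w' hw' h
    rw [mem_coe, mem_sdiff] at hw hw'
    simp only at h
    have : w ∈ insert w' S := by rw [← h]; exact mem_insert_self _ _
    rcases mem_insert.1 this with h' | h'
    · exact h'
    · exact absurd h' hw.2
  have h3 : (A \ S).image (fun w => insert w S) ⊆ G.filter (fun e => S ⊆ e) := by
    intro e he
    obtain ⟨w, hw, rfl⟩ := mem_image.1 he
    rw [mem_sdiff] at hw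
    rw [mem_filter]
    refine ⟨hG _ ?_ (hok w hw.2 ?_), subset_insert _ _⟩
    · rw [card_insert_of_notMem hw.2, hS]; omega
    · exact (mem_filter.1 hw.1).2
  have h4 := card_le_card h3
  have h5 : A.card - S.card ≤ (A \ S).card := le_card_sdiff _ _
  have h6 : m * (n / N) ≤ J.card * (n / N) := Nat.mul_le_mul_right _ hJm
  omega


/-- Upper bound: some `(r-1)`-set has small codegree. -/
lemma upper {n r N m : ℕ} (hr : 3 ≤ r) (hN : 0 < N) (hnr : r ≤ n)
    (G : Finset (Finset (Fin n))) (hG : ∀ e ∈ G, e.card = r)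
    (hfree : ∀ k : ℕ, ∀ H ∈ Fam r N m (LL N r N) k, ∀ f : Fin k ↪ Fin n, ∃ e ∈ H, e.map f ∉ G) :
    ∃ S : Finset (Fin n), S.card = r - 1 ∧
      (G.filter (fun e => S ⊆ e)).card ≤ m * n / N + N * r := by
  classical
  by_cases hn : N * r ≤ n
  · by_contra hcon
    push Not at hcon
    have hD : ∀ S : Finset (Fin n), S.card = r - 1 →
        m * n / N + N * r + 1 ≤ (G.filter (fun e => S ⊆ e)).card := fun S hS => hcon S hS
    have hDK : m * n + N * (N * r) ≤ N * (m * n / N + N * r + 1) := by
      have h1 := Nat.lt_mul_div_succ (m * n) hN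
      have e1 : N * (m * n / N + N * r + 1) = N * (m * n / N + 1) + N * (N * r) := by ring
      omega
    obtain ⟨B, hBc, hB⟩ := iterate hr hN hn G hG hD hDK N
    obtain ⟨c, hc, hok⟩ := colOn_of_free hN hG hfree B hBc
    have h2 := hB c hc hok
    have h3 : (Pop r N c B).card ≤ (range N).card := by
      apply card_le_card
      intro x hx
      exact mem_range.2 (mem_Pop.1 hx).1
    rw [card_range] at h3
    omega
  · have hcard : r - 1 ≤ (univ : Finset (Fin n)).card := by
      rw [card_univ, Fintype.card_fin]; omega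
    obtain ⟨S, _, hS⟩ := exists_subset_card_eq hcard
    refine ⟨S, hS, ?_⟩
    have h1 := codeg_le_nbr hr G hG S hS
    have h2 : (univ.filter (fun w => w ∉ S ∧ insert w S ∈ G)).card ≤ n := by
      calc _ ≤ (univ : Finset (Fin n)).card := card_le_card (filter_subset _ _)
        _ = n := by simp
    have h3 : n ≤ N * r := (not_le.1 hn).le
    exact ((h1.trans h2).trans h3).trans (Nat.le_add_left _ _)

/-- The main statement for `d = m / N`, with a bounded error. -/
theorem main_nat (r : ℕ) (hr : 3 ≤ r) (m N : ℕ) (hm : m < N) :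
    ∃ F : (k : ℕ) → Set (Finset (Finset (Fin k))),
      (∀ k : ℕ, ∀ H ∈ F k, ∀ e ∈ H, e.card = r) ∧
      (∃ L : ℕ, ∀ k : ℕ, L < k → F k = ∅) ∧
      ∃ C : ℝ, ∀ n : ℕ, r ≤ n →
        (∃ G : Finset (Finset (Fin n)),
            (∀ e ∈ G, e.card = r) ∧
            (∀ k : ℕ, ∀ H ∈ F k, ∀ f : Fin k ↪ Fin n, ∃ e ∈ H, e.map f ∉ G) ∧
            ∀ S : Finset (Fin n), S.card = r - 1 →
              (m : ℝ) / N * ((n : ℝ) - (r : ℝ) + 1) - C ≤
                ((G.filter (fun e => S ⊆ e)).card : ℝ)) ∧
        (∀ G : Finset (Finset (Fin n)),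
            (∀ e ∈ G, e.card = r) →
            (∀ k : ℕ, ∀ H ∈ F k, ∀ f : Fin k ↪ Fin n, ∃ e ∈ H, e.map f ∉ G) →
            ∃ S : Finset (Fin n), S.card = r - 1 ∧
              ((G.filter (fun e => S ⊆ e)).card : ℝ) ≤
                (m : ℝ) / N * ((n : ℝ) - (r : ℝ) + 1) + C) := by
  classical
  have hN : 0 < N := by omega
  have hNr : (0 : ℝ) < N := by exact_mod_cast hN
  have hmN : (m : ℝ) ≤ N := by exact_mod_cast hm.le
  have hr3 : (3 : ℝ) ≤ r := by exact_mod_cast hr
  have hm0 : (0 : ℝ) ≤ m := by positivity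
  have hq0 : (0 : ℝ) ≤ (m : ℝ) / N := by positivity
  have hq1 : (m : ℝ) / N ≤ 1 := by rw [div_le_one hNr]; exact hmN
  have hqN : (m : ℝ) / N * N = m := by field_simp
  have hNr0 : (0 : ℝ) ≤ (N : ℝ) * r := by positivity
  refine ⟨Fam r N m (LL N r N), fun k H hH => hH.2.1, ⟨LL N r N, ?_⟩,
    (N : ℝ) * r + m + r, ?_⟩
  · intro k hk
    rw [Set.eq_empty_iff_forall_notMem]
    intro H hH
    have := hH.1
    omega
  intro n hnr
  constructor
  · refine ⟨univ.filter (fun T : Finset (Fin n) => T.card = r ∧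
      Ok N m (fun v : Fin n => (v : ℕ) % N) T), ?_, ?_, ?_⟩
    · intro e he
      exact (mem_filter.1 he).2.1
    · apply free_of_col
      refine ⟨fun v : Fin n => (v : ℕ) % N, fun v => Nat.mod_lt _ hN, fun T hT => ?_⟩
      exact (mem_filter.1 hT).2.2
    · intro S hS
      have h1 := codeg_ge hr hm (univ.filter (fun T : Finset (Fin n) => T.card = r ∧
        Ok N m (fun v : Fin n => (v : ℕ) % N) T))
        (fun T hT hok => mem_filter.2 ⟨mem_univ _, hT, hok⟩) S hS
      set cd := ((univ.filter (fun T : Finset (Fin n) => T.card = r ∧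
        Ok N m (fun v : Fin n => (v : ℕ) % N) T)).filter (fun e => S ⊆ e)).card
      have h2 : (m : ℝ) * ((n / N : ℕ) : ℝ) ≤ (cd : ℝ) + r := by
        have : m * (n / N) ≤ cd + r := by omega
        exact_mod_cast this
      have h3 : (n : ℝ) ≤ N * ((n / N : ℕ) : ℝ) + N := by
        have : n ≤ N * (n / N) + N := by
          have := Nat.lt_mul_div_succ n hN
          have e : N * (n / N + 1) = N * (n / N) + N := by ring
          omega
        exact_mod_cast this
      have h4 : (m : ℝ) / N * n ≤ m * ((n / N : ℕ) : ℝ) + m := by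
        have h5 := mul_le_mul_of_nonneg_left h3 hq0
        have e : (m : ℝ) / N * (N * ((n / N : ℕ) : ℝ) + N) =
            ((m : ℝ) / N * N) * ((n / N : ℕ) : ℝ) + (m : ℝ) / N * N := by ring
        rw [e, hqN] at h5
        exact h5
      have h6 : 0 ≤ (m : ℝ) / N * ((r : ℝ) - 1) := mul_nonneg hq0 (by linarith)
      have e : (m : ℝ) / N * ((n : ℝ) - (r : ℝ) + 1) =
          (m : ℝ) / N * n - (m : ℝ) / N * ((r : ℝ) - 1) := by ring
      rw [e]
      linarith
  · intro G hG hfree
    obtain ⟨S, hS, hle⟩ := upper hr hN hnr G hG hfree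
    refine ⟨S, hS, ?_⟩
    have h1 : ((G.filter (fun e => S ⊆ e)).card : ℝ) ≤ ((m * n / N : ℕ) : ℝ) + N * r := by
      exact_mod_cast hle
    have h2 : ((m * n / N : ℕ) : ℝ) ≤ (m : ℝ) / N * n := by
      have h3 : ((m * n / N : ℕ) : ℝ) ≤ ((m * n : ℕ) : ℝ) / (N : ℝ) := Nat.cast_div_le
      push_cast at h3
      have e : (m : ℝ) / N * n = (m : ℝ) * n / N := by ring
      rw [e]
      exact h3
    have h4 : (m : ℝ) / N * ((r : ℝ) - 1) ≤ (r : ℝ) - 1 := by
      have := mul_le_mul_of_nonneg_right hq1 (show (0 : ℝ) ≤ (r : ℝ) - 1 by linarith)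
      linarith
    have e : (m : ℝ) / N * ((n : ℝ) - (r : ℝ) + 1) =
        (m : ℝ) / N * n - (m : ℝ) / N * ((r : ℝ) - 1) := by ring
    rw [e]
    linarith

/-- **For every `r ≥ 3`, every rational number in `[0,1)` is the codegree density of a finite
family of `r`-graphs, and the codegree Turan number is `q n + O(1)`.** -/
theorem result :
    ∀ r : ℕ, 3 ≤ r → ∀ q : ℚ, 0 ≤ q → q < 1 →
      ∃ F : (m : ℕ) → Set (Finset (Finset (Fin m))),
        (∀ m : ℕ, ∀ H ∈ F m, ∀ e ∈ H, e.card = r) ∧
        (∃ L : ℕ, ∀ m : ℕ, L < m → F m = ∅) ∧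
        (∃ C : ℝ, ∀ n : ℕ, r ≤ n →
          (∃ G : Finset (Finset (Fin n)),
              (∀ e ∈ G, e.card = r) ∧
              (∀ m : ℕ, ∀ H ∈ F m, ∀ f : Fin m ↪ Fin n, ∃ e ∈ H, e.map f ∉ G) ∧
              ∀ S : Finset (Fin n), S.card = r - 1 →
                (q : ℝ) * ((n : ℝ) - (r : ℝ) + 1) - C ≤
                  ((G.filter (fun e => S ⊆ e)).card : ℝ)) ∧
          (∀ G : Finset (Finset (Fin n)),
              (∀ e ∈ G, e.card = r) →
              (∀ m : ℕ, ∀ H ∈ F m, ∀ f : Fin m ↪ Fin n, ∃ e ∈ H, e.map f ∉ G) →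
              ∃ S : Finset (Fin n), S.card = r - 1 ∧
                ((G.filter (fun e => S ⊆ e)).card : ℝ) ≤
                  (q : ℝ) * ((n : ℝ) - (r : ℝ) + 1) + C)) ∧
        ∀ ε : ℝ, 0 < ε → ∃ N : ℕ, ∀ n : ℕ, N ≤ n →
          (∃ G : Finset (Finset (Fin n)),
              (∀ e ∈ G, e.card = r) ∧
              (∀ m : ℕ, ∀ H ∈ F m, ∀ f : Fin m ↪ Fin n, ∃ e ∈ H, e.map f ∉ G) ∧
              ∀ S : Finset (Fin n), S.card = r - 1 →
                ((q : ℝ) - ε) * ((n : ℝ) - (r : ℝ) + 1) ≤
                  ((G.filter (fun e => S ⊆ e)).card : ℝ)) ∧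
          (∀ G : Finset (Finset (Fin n)),
              (∀ e ∈ G, e.card = r) →
              (∀ m : ℕ, ∀ H ∈ F m, ∀ f : Fin m ↪ Fin n, ∃ e ∈ H, e.map f ∉ G) →
              ∃ S : Finset (Fin n), S.card = r - 1 ∧
                ((G.filter (fun e => S ⊆ e)).card : ℝ) <
                  ((q : ℝ) + ε) * ((n : ℝ) - (r : ℝ) + 1)) := by
  intro r hr q hq0 hq1
  have hden : 0 < q.den := q.den_pos
  have hnum0 : 0 ≤ q.num := Rat.num_nonneg.2 hq0
  obtain ⟨m, hm⟩ := Int.eq_ofNat_of_zero_le hnum0
  have hqr : (q : ℝ) = (m : ℝ) / (q.den : ℝ) := by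
    have h1 : (q : ℝ) = ((q.num : ℤ) : ℝ) / ((q.den : ℕ) : ℝ) := Rat.cast_def q
    rw [h1, hm]
    simp
  have hlt : m < q.den := by
    have h1 : (q : ℝ) < 1 := by exact_mod_cast hq1
    rw [hqr, div_lt_one (by exact_mod_cast hden)] at h1
    exact_mod_cast h1
  rw [hqr]
  obtain ⟨F, hF1, hF2, C, hC⟩ := main_nat r hr m q.den hlt
  refine ⟨F, hF1, hF2, ⟨C, hC⟩, ?_⟩
  intro ε hε
  refine ⟨⌈(|C| + 1) / ε⌉₊ + r, ?_⟩
  intro n hn
  have hnr : r ≤ n := by omega
  have hbig : |C| + 1 ≤ ε * ((n : ℝ) - r + 1) := by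
    have h1 : (|C| + 1) / ε ≤ ⌈(|C| + 1) / ε⌉₊ := Nat.le_ceil _
    have h2 : ((⌈(|C| + 1) / ε⌉₊ + r : ℕ) : ℝ) ≤ n := by exact_mod_cast hn
    push_cast at h2
    have h3 : (|C| + 1) / ε ≤ (n : ℝ) - r + 1 := by linarith
    rw [div_le_iff₀ hε] at h3
    linarith
  have hCa : C ≤ |C| := le_abs_self C
  obtain ⟨hlow, hupp⟩ := hC n hnr
  constructor
  · obtain ⟨G, hG1, hG2, hG3⟩ := hlow
    refine ⟨G, hG1, hG2, fun S hS => ?_⟩
    have h1 := hG3 S hS
    have e : ((m : ℝ) / (q.den : ℝ) - ε) * ((n : ℝ) - (r : ℝ) + 1) =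
        (m : ℝ) / (q.den : ℝ) * ((n : ℝ) - (r : ℝ) + 1) - ε * ((n : ℝ) - r + 1) := by ring
    rw [e]
    linarith
  · intro G hG1 hG2
    obtain ⟨S, hS1, hS2⟩ := hupp G hG1 hG2
    refine ⟨S, hS1, ?_⟩
    have e : ((m : ℝ) / (q.den : ℝ) + ε) * ((n : ℝ) - (r : ℝ) + 1) =
        (m : ℝ) / (q.den : ℝ) * ((n : ℝ) - (r : ℝ) + 1) + ε * ((n : ℝ) - r + 1) := by ring
    rw [e]
    linarith

end Pool.Agent.Results.MP_be80fa_co.RationalDensities
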